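import Pool.Agent.Helper28.RZ.Sch.Pt

/-!
# RZ-S7: the projective scheme with given homogeneous coordinates of the generic point
-/

set_option autoImplicit false

open AlgebraicGeometry CategoryTheory HomogeneousLocalization TopologicalSpace

namespace Pool.Agent.Helper28.RZ.SE

open Pool.Agent.Helper17.RZ Pool.Agent.Helper17.RZ.Sch

universe u

noncomputable section

attribute [local instance] MvPolynomial.gradedAlgebra

variable {k : Type u} [Field k] {K : Type u} [Field K] [Algebra k K] (Z : ProjVar k K)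

/-- the generic point as a point of projective space -/
def pz : Spec (.of K) ⟶ PP k Z.I := pt Z.a (Classical.arbitrary Z.I) (Z.a_ne _)

/-- the affine open subsets -/
def UU (i : Z.I) : (pz Z).image.Opens := (pz Z).imageι ⁻¹ᵁ Proj.basicOpen (gr k Z.I) (MvPolynomial.X i)

theorem UU_ne (i : Z.I) : (UU Z i : Set (pz Z).image).Nonempty :=
  ⟨_, gp_mem Z.a _ (Z.a_ne _) _ (X_ne Z.a i (Z.a_ne i)) (X_mem i) one_pos⟩

theorem UU_aff (i : Z.I) : IsAffineOpen (UU Z i) :=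
  (Proj.isAffineOpen_basicOpen (gr k Z.I) _ (X_mem i) one_pos).preimage _

theorem UU_cov (x : (pz Z).image) : ∃ i, x ∈ UU Z i := by
  have h1 : (pz Z).imageι x ∈ ⨆ i : Z.I, Proj.basicOpen (gr k Z.I) (MvPolynomial.X i) := by
    rw [Proj.iSup_basicOpen_eq_top' (gr k Z.I) (fun i => MvPolynomial.X i) (fun i => ⟨1, X_mem i⟩)]
    · trivial
    · rw [eq_top_iff]
      rintro y -
      have hy : y ∈ Algebra.adjoin k (Set.range (MvPolynomial.X : Z.I → MvPolynomial Z.I k)) := by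
        rw [MvPolynomial.adjoin_range_X]
        trivial
      induction hy using Algebra.adjoin_induction with
      | mem y hy => exact Algebra.subset_adjoin hy
      | algebraMap c =>
        exact Subalgebra.algebraMap_mem _ (algebraMap k (gr k Z.I 0) c)
      | add y y' _ _ h h' => exact add_mem h h'
      | mul y y' _ _ h h' => exact mul_mem h h'
  obtain ⟨i, hi⟩ := Opens.mem_iSup.mp h1
  exact ⟨i, hi⟩

/-- the scheme -/
def XX : CSch.{u} k :=
  CSch.mk (pz Z).image ((pz Z).imageι ≫ strP k Z.I) Z.I (UU Z) (UU_ne Z) (UU_aff Z) (UU_cov Z)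

theorem inf_eq (σ : Finset Z.I) :
    σ.inf (UU Z) = (pz Z).imageι ⁻¹ᵁ Proj.basicOpen (gr k Z.I) (pol k σ) := by
  classical
  induction σ using Finset.induction_on with
  | empty =>
    unfold pol
    rw [Finset.prod_empty, Proj.basicOpen_one]
    rfl
  | insert i σ hi ih =>
    unfold pol at ih ⊢
    rw [Finset.prod_insert hi, Proj.basicOpen_mul, Finset.inf_insert, ih]
    rfl

theorem Us_eq (σ : Finset Z.I) :
    (XX Z).Us σ = (pz Z).imageι ⁻¹ᵁ Proj.basicOpen (gr k Z.I) (pol k σ) := inf_eq Z σ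

theorem inf_aff (σ : Finset Z.I) (hσ : σ.Nonempty) : IsAffineOpen (σ.inf (UU Z)) := by
  rw [inf_eq]
  exact (Proj.isAffineOpen_basicOpen (gr k Z.I) _ (pol_mem σ) (Finset.card_pos.mpr hσ)).preimage _

theorem Us_aff (σ : Finset Z.I) (hσ : σ.Nonempty) : IsAffineOpen ((XX Z).Us σ) := inf_aff Z σ hσ

/-- the value of rational functions at the point -/
def TT : (XX Z).K →ₐ[k] K :=
  { Theta (pz Z) with
    commutes' := fun c => Theta_cst Z.a _ (Z.a_ne _) c }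

theorem TT_gr (σ : Finset Z.I) (hσ : σ.Nonempty) (h : (XX Z).eta ∈
    (pz Z).imageι ⁻¹ᵁ Proj.basicOpen (gr k Z.I) (pol k σ)) (z : Away (gr k Z.I) (pol k σ)) :
    TT Z ((XX Z).gr _ h ((pz Z).imageι.app _ (Proj.awayToSection (gr k Z.I) (pol k σ) z))) =
      ev Z.a (pol k σ) (pol_ne Z.a Z.a_ne σ) z :=
  Theta_ev Z.a _ (Z.a_ne _) (pol k σ) (pol_ne Z.a Z.a_ne σ) (pol_mem σ)
    (Finset.card_pos.mpr hσ) z

theorem gp_mem' (σ : Finset Z.I) (hσ : σ.Nonempty) : (XX Z).eta ∈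
    (pz Z).imageι ⁻¹ᵁ Proj.basicOpen (gr k Z.I) (pol k σ) :=
  gp_mem Z.a _ (Z.a_ne _) (pol k σ) (pol_ne Z.a Z.a_ne σ) (pol_mem σ) (Finset.card_pos.mpr hσ)

theorem TT_mem (σ : Finset Z.I) (hσ : σ.Nonempty) (c : K) (hc : c ∈ Aσ k Z.a σ) :
    ∃ x ∈ (XX Z).OO ((XX Z).Us σ), TT Z x = c := by
  obtain ⟨z, hz⟩ := (range_ev Z.a Z.a_ne σ hσ c).2 hc
  refine ⟨_, ?_, (TT_gr Z σ hσ (gp_mem' Z σ hσ) z).trans hz⟩
  rw [Us_eq]
  exact fun _ => ⟨_, rfl⟩

theorem TT_surj : Function.Surjective (TT Z) := by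
  rw [← AlgHom.fieldRange_eq_top, ← top_le_iff, ← Z.gen, IntermediateField.adjoin_le_iff]
  rintro _ ⟨i, j, rfl⟩
  obtain ⟨x, _, hx⟩ := TT_mem Z {j} (Finset.singleton_nonempty j) (Z.a i / Z.a j)
    (Algebra.subset_adjoin ⟨j, Finset.mem_singleton_self j, i, rfl⟩)
  exact ⟨x, hx⟩

/-- the isomorphism of the fields -/
def ee : K ≃ₐ[k] (XX Z).K :=
  (AlgEquiv.ofBijective (TT Z) ⟨(TT Z).toRingHom.injective, TT_surj Z⟩).symm

theorem TT_ee (c : K) : TT Z (ee Z c) = c :=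
  (AlgEquiv.ofBijective (TT Z) ⟨(TT Z).toRingHom.injective, TT_surj Z⟩).apply_symm_apply c

theorem ee_TT (c : (XX Z).K) : ee Z (TT Z c) = c :=
  (AlgEquiv.ofBijective (TT Z) ⟨(TT Z).toRingHom.injective, TT_surj Z⟩).symm_apply_apply c

theorem mem_OO (σ : Finset Z.I) (hσ : σ.Nonempty) (c : (XX Z).K) :
    c ∈ (XX Z).OO ((XX Z).Us σ) ↔ TT Z c ∈ Aσ k Z.a σ := by
  constructor
  · intro hc
    rw [Us_eq] at hc
    obtain ⟨r, rfl⟩ := hc (gp_mem' Z σ hσ)
    obtain ⟨r', rfl⟩ := (pz Z).ker.subschemeι_app_surjective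
      ⟨_, Proj.isAffineOpen_basicOpen (gr k Z.I) _ (pol_mem σ) (Finset.card_pos.mpr hσ)⟩ r
    have h1 : Function.Surjective (Proj.awayToSection (gr k Z.I) (pol k σ)) := by
      have h2 := (Proj.basicOpenIsoAway (gr k Z.I) (pol k σ) (pol_mem σ)
        (Finset.card_pos.mpr hσ)).commRingCatIsoToRingEquiv.surjective
      exact h2
    obtain ⟨z, rfl⟩ := h1 r'
    have h2 := TT_gr Z σ hσ (gp_mem' Z σ hσ) z
    rw [← range_ev Z.a Z.a_ne σ hσ]
    exact ⟨z, h2.symm⟩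
  · intro hc
    obtain ⟨x, hx, h⟩ := TT_mem Z σ hσ _ hc
    rw [← (TT Z).toRingHom.injective h]
    exact hx

theorem isModel : IsModel (XX Z) (fun i => ee Z (Z.a i)) where
  ne := Z.ne
  a_ne := (Z.map (ee Z)).a_ne
  gen := (Z.map (ee Z)).gen
  OO_eq σ hσ := by
    have h1 : (XX Z).OO ((XX Z).Us σ) = (Aσ k Z.a σ).map (ee Z : K →ₐ[k] (XX Z).K) := by
      ext c
      rw [mem_OO Z σ hσ, Subalgebra.mem_map]
      constructor
      · intro h
        exact ⟨_, h, ee_TT Z c⟩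
      · rintro ⟨x, hx, rfl⟩
        change TT Z (ee Z x) ∈ _
        rw [TT_ee]
        exact hx
    rw [h1]
    unfold Aσ
    rw [AlgHom.map_adjoin]
    congr 1
    ext x
    constructor
    · rintro ⟨_, ⟨i, hi, j, rfl⟩, rfl⟩
      exact ⟨i, hi, j, map_div₀ (ee Z) _ _⟩
    · rintro ⟨i, hi, j, rfl⟩
      exact ⟨_, ⟨i, hi, j, rfl⟩, map_div₀ (ee Z) _ _⟩
  aff σ hσ := Us_aff Z σ hσ

theorem schemeEx : SchemeEx.{u} := by
  intro k _ K _ _ Z
  refine ⟨(pz Z).image, inferInstance, (pz Z).imageι ≫ strP k Z.I, UU Z, UU_ne Z, UU_aff Z,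
    UU_cov Z, ⟨Z.I, inferInstance, (pz Z).imageι, inferInstance, rfl⟩, ee Z, isModel Z⟩

end

end Pool.Agent.Helper28.RZ.SE
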