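import Pool.Agent.Helper17.RZ.Sch.St

/-!
# RZ-S7, part 1: evaluation of degree zero fractions at the generic point
-/

set_option autoImplicit false

open AlgebraicGeometry CategoryTheory HomogeneousLocalization

namespace Pool.Agent.Helper28.RZ.SE

open Pool.Agent.Helper17.RZ Pool.Agent.Helper17.RZ.Sch

universe u

noncomputable section

attribute [local instance] MvPolynomial.gradedAlgebra

variable {k : Type u} [Field k] {K : Type u} [Field K] [Algebra k K] {I : Type} (a : I → K)

/-- the grading of the polynomial ring -/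
abbrev gr (k : Type u) [Field k] (I : Type) : ℕ → Submodule k (MvPolynomial I k) :=
  MvPolynomial.homogeneousSubmodule I k

/-- evaluation of degree zero fractions -/
def ev (f : MvPolynomial I k) (hf : MvPolynomial.aeval a f ≠ 0) : Away (gr k I) f →+* K :=
  (IsLocalization.Away.lift (S := Localization.Away f) (g := (MvPolynomial.aeval a).toRingHom) f
    (isUnit_iff_ne_zero.mpr hf)).comp (algebraMap (Away (gr k I) f) (Localization.Away f))

theorem ev_mk (f : MvPolynomial I k) (hf : MvPolynomial.aeval a f ≠ 0) {d : ℕ}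
    (hd : f ∈ gr k I d) (n : ℕ) (x : MvPolynomial I k) (hx : x ∈ gr k I (n • d)) :
    ev a f hf (Away.mk (gr k I) hd n x hx) =
      MvPolynomial.aeval a x / (MvPolynomial.aeval a f) ^ n := by
  unfold ev
  rw [RingHom.comp_apply, HomogeneousLocalization.algebraMap_apply, Away.val_mk,
    Localization.mk_eq_mk', IsLocalization.Away.lift, IsLocalization.lift_mk']
  rw [Units.mul_inv_eq_iff_eq_mul]
  change MvPolynomial.aeval a x = _ * MvPolynomial.aeval a (f ^ n)
  rw [map_pow, div_mul_cancel₀]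
  exact pow_ne_zero _ hf

theorem ev_awayMap (f g x : MvPolynomial I k) (hf : MvPolynomial.aeval a f ≠ 0)
    (hx0 : MvPolynomial.aeval a x ≠ 0) {d d' : ℕ} (hd : f ∈ gr k I d) (hg : g ∈ gr k I d')
    (hx : x = f * g) (z : Away (gr k I) f) :
    ev a x hx0 (awayMap (gr k I) hg hx z) = ev a f hf z := by
  obtain ⟨n, y, hy, rfl⟩ := z.mk_surjective _ hd
  rw [awayMap_mk, ev_mk, ev_mk]
  subst hx
  have hg0 : MvPolynomial.aeval a g ≠ 0 := fun h => hx0 (by rw [map_mul, h, mul_zero])
  rw [map_mul, map_mul, map_pow, mul_pow]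
  rw [mul_div_mul_right _ _ (pow_ne_zero _ hg0)]

theorem ev_zero (f : MvPolynomial I k) (hf : MvPolynomial.aeval a f ≠ 0) (c : k) :
    ev a f hf (fromZeroRingHom (gr k I) _ (algebraMap k (gr k I 0) c)) = algebraMap k K c := by
  unfold ev
  rw [RingHom.comp_apply, HomogeneousLocalization.algebraMap_apply]
  have h1 : (fromZeroRingHom (gr k I) (Submonoid.powers f) (algebraMap k (gr k I 0) c)).val =
      algebraMap (MvPolynomial I k) (Localization.Away f) (MvPolynomial.C c) := rfl
  rw [h1, IsLocalization.Away.lift_eq]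
  exact MvPolynomial.aeval_C _ _

/-! ### The range of the evaluation -/

/-- the coordinate ring of the open subset of `σ` -/
def Aσ (k : Type u) [Field k] [Algebra k K] (a : I → K) (σ : Finset I) : Subalgebra k K :=
  Algebra.adjoin k {x : K | ∃ i ∈ σ, ∃ j, x = a j / a i}

theorem aeval_scale (i0 : I) (hi0 : a i0 ≠ 0) (d : ℕ) (x : MvPolynomial I k)
    (hx : x ∈ gr k I d) : MvPolynomial.aeval a x =
      a i0 ^ d * MvPolynomial.aeval (fun j => a j / a i0) x := by
  rw [MvPolynomial.aeval_def, MvPolynomial.aeval_def, MvPolynomial.eval₂_eq, MvPolynomial.eval₂_eq,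
    Finset.mul_sum]
  refine Finset.sum_congr rfl fun m hm => ?_
  have h1 : d = ∑ i ∈ m.support, m i :=
    ((MvPolynomial.mem_homogeneousSubmodule _ _).1 hx).degree_eq_sum_deg_support hm
  rw [mul_left_comm]
  congr 1
  rw [h1, ← Finset.prod_pow_eq_pow_sum, ← Finset.prod_mul_distrib]
  refine Finset.prod_congr rfl fun i _ => ?_
  rw [← mul_pow, mul_div_cancel₀ _ hi0]

theorem mem_Aσ (σ : Finset I) (i0 : I) (hi0 : i0 ∈ σ) (x : MvPolynomial I k) :
    MvPolynomial.aeval (fun j => a j / a i0) x ∈ Aσ k a σ := by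
  have h1 : MvPolynomial.aeval (fun j => a j / a i0) x ∈
      Algebra.adjoin k (Set.range fun j => a j / a i0) := by
    rw [Algebra.adjoin_range_eq_range_aeval]
    exact ⟨x, rfl⟩
  refine Algebra.adjoin_mono ?_ h1
  rintro _ ⟨j, rfl⟩
  exact ⟨i0, hi0, j, rfl⟩

/-- the polynomial of `σ` -/
def pol (k : Type u) [Field k] (σ : Finset I) : MvPolynomial I k := ∏ i ∈ σ, MvPolynomial.X i

theorem pol_mem (σ : Finset I) : pol k σ ∈ gr k I σ.card := by
  have h := MvPolynomial.IsHomogeneous.prod σ (fun i => (MvPolynomial.X i : MvPolynomial I k))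
    (fun _ => 1) (fun i _ => MvPolynomial.isHomogeneous_X k i)
  rw [Finset.sum_const, smul_eq_mul, mul_one] at h
  exact h

theorem aeval_pol (σ : Finset I) : MvPolynomial.aeval a (pol k σ) = ∏ i ∈ σ, a i := by
  unfold pol
  rw [map_prod]
  simp only [MvPolynomial.aeval_X]

theorem pol_ne (ha : ∀ i, a i ≠ 0) (σ : Finset I) : MvPolynomial.aeval a (pol k σ) ≠ 0 := by
  rw [aeval_pol]
  exact Finset.prod_ne_zero_iff.mpr fun i _ => ha i

theorem range_ev (ha : ∀ i, a i ≠ 0) (σ : Finset I) (hσ : σ.Nonempty) (c : K) :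
    (∃ z, ev a (pol k σ) (pol_ne a ha σ) z = c) ↔ c ∈ Aσ k a σ := by
  classical
  constructor
  · rintro ⟨z, rfl⟩
    obtain ⟨n, y, hy, rfl⟩ := z.mk_surjective _ (pol_mem σ)
    obtain ⟨i0, hi0⟩ := hσ
    rw [ev_mk, aeval_scale a i0 (ha i0) _ y hy, aeval_pol]
    have h1 : a i0 ^ (n • σ.card) * MvPolynomial.aeval (fun j => a j / a i0) y / (∏ i ∈ σ, a i) ^ n =
        (∏ i ∈ σ, a i0 / a i) ^ n * MvPolynomial.aeval (fun j => a j / a i0) y := by
      rw [Finset.prod_div_distrib, Finset.prod_const, div_pow, smul_eq_mul, mul_comm n, pow_mul]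
      ring
    rw [h1]
    refine mul_mem (pow_mem (prod_mem fun i hi => ?_) n) (mem_Aσ a σ i0 hi0 y)
    exact Algebra.subset_adjoin ⟨i, hi, i0, rfl⟩
  · intro hc
    induction hc using Algebra.adjoin_induction with
    | mem x hx =>
      obtain ⟨i, hi, j, rfl⟩ := hx
      have hm : MvPolynomial.X j * pol k (σ.erase i) ∈ gr k I (1 • σ.card) := by
        have h1 := SetLike.mul_mem_graded (A := gr k I)
          (MvPolynomial.isHomogeneous_X k j) (pol_mem (σ.erase i))
        rw [Finset.card_erase_of_mem hi] at h1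
        rw [one_smul]
        have h2 : 1 + (σ.card - 1) = σ.card := by
          have := Finset.card_pos.mpr ⟨i, hi⟩
          omega
        rw [h2] at h1
        exact h1
      refine ⟨Away.mk (gr k I) (pol_mem σ) 1 _ hm, ?_⟩
      rw [ev_mk, map_mul, MvPolynomial.aeval_X, aeval_pol, aeval_pol, pow_one,
        ← Finset.mul_prod_erase σ a hi]
      rw [mul_div_mul_right]
      exact Finset.prod_ne_zero_iff.mpr fun i _ => ha i
    | algebraMap r => exact ⟨_, ev_zero a _ _ r⟩
    | add x y _ _ hx hy =>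
      obtain ⟨z, rfl⟩ := hx
      obtain ⟨w, rfl⟩ := hy
      exact ⟨z + w, map_add _ _ _⟩
    | mul x y _ _ hx hy =>
      obtain ⟨z, rfl⟩ := hx
      obtain ⟨w, rfl⟩ := hy
      exact ⟨z * w, map_mul _ _ _⟩

end

end Pool.Agent.Helper28.RZ.SE
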