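import Mathlib

/-!
# RZ-S7: the scheme theoretic image of a point with values in a field
-/

set_option autoImplicit false

open AlgebraicGeometry CategoryTheory TopologicalSpace

namespace Pool.Agent.Helper28.RZ.SE

universe u

noncomputable section

variable {K : Type u} [Field K] {P : Scheme.{u}} (p : Spec (.of K) ⟶ P)

/-- the point of the spectrum of a field -/
abbrev x0 (K : Type u) [Field K] : Spec (.of K) := genericPoint (Spec (.of K))

theorem x0_mem {U : (Spec (.of K)).Opens} (x : Spec (.of K)) (h : x ∈ U) : x0 K ∈ U :=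
  ((genericPoint_spec (Spec (.of K))).mem_open_set_iff U.isOpen).mpr ⟨x, trivial, h⟩

theorem eq_top_of_mem {U : (Spec (.of K)).Opens} (h : x0 K ∈ U) : U = ⊤ := by
  have : Subsingleton (Spec (.of K)) := inferInstanceAs (Subsingleton (PrimeSpectrum K))
  ext x
  rw [Subsingleton.elim x (x0 K)]
  exact ⟨fun _ => trivial, fun _ => h⟩

/-- the field as the stalk of its spectrum -/
def kap (K : Type u) [Field K] : K →+* (Spec (.of K)).presheaf.stalk (x0 K) :=
  ((Scheme.ΓSpecIso (.of K)).inv ≫ (Spec (.of K)).presheaf.germ ⊤ (x0 K) trivial).hom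

theorem kap_surj : Function.Surjective (kap K) := by
  intro c
  obtain ⟨U, hU, r, rfl⟩ := (Spec (.of K)).presheaf.exists_germ_eq c
  obtain rfl := eq_top_of_mem hU
  refine ⟨(Scheme.ΓSpecIso (.of K)).hom r, ?_⟩
  unfold kap
  rw [CommRingCat.hom_comp, RingHom.comp_apply]
  congr 1
  exact congr($((Scheme.ΓSpecIso (.of K)).hom_inv_id) r)

/-- the isomorphism -/
def kape (K : Type u) [Field K] : K ≃+* (Spec (.of K)).presheaf.stalk (x0 K) :=
  RingEquiv.ofBijective (kap K) ⟨(kap K).injective, kap_surj⟩

instance : IsSchemeTheoreticallyDominant p.toImage := by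
  refine ⟨?_⟩
  refine Scheme.IdealSheafData.ext_of_iSup_eq_top
    (fun U : P.affineOpens => ⟨p.imageι ⁻¹ᵁ U.1, U.2.preimage p.imageι⟩) ?_ ?_
  · refine top_le_iff.mp fun x _ => ?_
    have h1 : p.imageι x ∈ (⨆ U : P.affineOpens, (U : P.Opens)) := by
      rw [iSup_affineOpens_eq_top P]
      trivial
    obtain ⟨U, hU⟩ := Opens.mem_iSup.mp h1
    exact Opens.mem_iSup.mpr ⟨U, hU⟩
  · intro U
    simp only [Scheme.Hom.ker_apply, Scheme.IdealSheafData.ideal_bot, Pi.bot_apply]
    rw [← RingHom.injective_iff_ker_eq_bot]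
    exact p.toImage_app_injective U

instance : IsReduced p.image := IsSchemeTheoreticallyDominant.isReduced p.toImage

theorem gen_img : IsGenericPoint (p.toImage (x0 K)) (Set.univ : Set p.image) := by
  have h1 : DenseRange p.toImage := p.toImage.denseRange
  have h2 : Set.range p.toImage = {p.toImage (x0 K)} := by
    have : Subsingleton (Spec (.of K)) := inferInstanceAs (Subsingleton (PrimeSpectrum K))
    ext y
    constructor
    · rintro ⟨x, rfl⟩
      rw [Subsingleton.elim x (x0 K)]
      rfl
    · rintro rfl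
      exact ⟨_, rfl⟩
  rw [DenseRange, h2, dense_iff_closure_eq] at h1
  exact h1

instance : IrreducibleSpace p.image :=
  { isPreirreducible_univ := (gen_img p).isIrreducible.2
    toNonempty := ⟨p.toImage (x0 K)⟩ }

instance : IsIntegral p.image := isIntegral_of_irreducibleSpace_of_isReduced _

theorem gp_img : genericPoint p.image = p.toImage (x0 K) :=
  (genericPoint_spec p.image).eq (gen_img p)

/-- the value of rational functions at the point, in the stalk -/
def theta : p.image.presheaf.stalk (genericPoint p.image) ⟶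
    (Spec (.of K)).presheaf.stalk (x0 K) :=
  p.image.presheaf.stalkSpecializes (specializes_of_eq (gp_img p).symm) ≫
    p.toImage.stalkMap (x0 K)

theorem theta_germ (V : p.image.Opens) (h : genericPoint p.image ∈ V) :
    p.image.presheaf.germ V _ h ≫ theta p = p.toImage.app V ≫
      (Spec (.of K)).presheaf.germ (p.toImage ⁻¹ᵁ V) (x0 K)
        (show p.toImage (x0 K) ∈ V by rw [← gp_img]; exact h) := by
  unfold theta
  rw [TopCat.Presheaf.germ_stalkSpecializes_assoc, Scheme.Hom.germ_stalkMap]

/-- the value of rational functions at the point -/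
def Theta : p.image.functionField →+* K := (kape K).symm.toRingHom.comp (theta p).hom

theorem Theta_germ (U : P.Opens) (hU : genericPoint p.image ∈ p.imageι ⁻¹ᵁ U) (r : Γ(P, U)) (c : K)
    (h : p.app U r = (Spec (.of K)).presheaf.map (homOfLE le_top).op
      ((Scheme.ΓSpecIso (.of K)).inv c)) :
    Theta p (p.image.presheaf.germ (p.imageι ⁻¹ᵁ U) _ hU (p.imageι.app U r)) = c := by
  have h1 := congr($(theta_germ p (p.imageι ⁻¹ᵁ U) hU) (p.imageι.app U r))
  change (kape K).symm _ = c
  rw [RingEquiv.symm_apply_eq]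
  refine Eq.trans h1 ?_
  have h2 : x0 K ∈ (p.toImage ≫ p.imageι) ⁻¹ᵁ U := by
    change p.toImage (x0 K) ∈ p.imageι ⁻¹ᵁ U
    rw [← gp_img]
    exact hU
  have key : ∀ (q : Spec (.of K) ⟶ P) (hq : x0 K ∈ q ⁻¹ᵁ U), p.toImage ≫ p.imageι = q →
      (Spec (.of K)).presheaf.germ _ (x0 K) h2 ((p.toImage ≫ p.imageι).app U r) =
      (Spec (.of K)).presheaf.germ _ (x0 K) hq (q.app U r) := by
    rintro _ _ rfl
    rfl
  refine Eq.trans (key p (by rw [p.toImage_imageι] at h2; exact h2) p.toImage_imageι) ?_
  rw [h]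
  exact TopCat.Presheaf.germ_res_apply _ _ _ _ _

end

end Pool.Agent.Helper28.RZ.SE
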