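import Pool.Agent.Helper28.RZ.Sch.Ev
import Pool.Agent.Helper28.RZ.Sch.Img

/-!
# RZ-S7, part 2: the point of projective space and its closure
-/

set_option autoImplicit false

open AlgebraicGeometry CategoryTheory HomogeneousLocalization TopologicalSpace

namespace Pool.Agent.Helper28.RZ.SE

open Pool.Agent.Helper17.RZ Pool.Agent.Helper17.RZ.Sch

universe u

noncomputable section

attribute [local instance] MvPolynomial.gradedAlgebra

variable {k : Type u} [Field k] {K : Type u} [Field K] [Algebra k K] {I : Type} (a : I → K)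

/-- projective space -/
abbrev PP (k : Type u) [Field k] (I : Type) : Scheme.{u} := Proj (gr k I)

theorem X_ne (i : I) (h0 : a i ≠ 0) : MvPolynomial.aeval a (MvPolynomial.X i : MvPolynomial I k) ≠ 0 := by
  rw [MvPolynomial.aeval_X]
  exact h0

theorem X_mem (i : I) : (MvPolynomial.X i : MvPolynomial I k) ∈ gr k I 1 :=
  MvPolynomial.isHomogeneous_X k i

/-- the point -/
def pt (i : I) (h0 : a i ≠ 0) : Spec (.of K) ⟶ PP k I :=
  Spec.map (CommRingCat.ofHom (ev a (MvPolynomial.X i : MvPolynomial I k) (X_ne a i h0))) ≫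
    Proj.awayι (gr k I) (MvPolynomial.X i) (X_mem i) one_pos

theorem pt_aux (f g x : MvPolynomial I k) (hx : x = f * g) (hf : MvPolynomial.aeval a f ≠ 0)
    (hx0 : MvPolynomial.aeval a x ≠ 0) {d d' e : ℕ} (he : e = d + d') (hd : f ∈ gr k I d)
    (hd0 : 0 < d) (hg : g ∈ gr k I d') (hm : x ∈ gr k I e) (hm0 : 0 < e) :
    Spec.map (CommRingCat.ofHom (ev a x hx0)) ≫ Proj.awayι (gr k I) x hm hm0 =
      Spec.map (CommRingCat.ofHom (ev a f hf)) ≫ Proj.awayι (gr k I) f hd hd0 := by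
  subst he
  rw [← Proj.SpecMap_awayMap_awayι (gr k I) hd hd0 hg hx, ← Category.assoc, ← Spec.map_comp,
    ← CommRingCat.ofHom_comp]
  congr 3
  ext z
  exact ev_awayMap a f g x hf hx0 hd hg hx z

theorem pt_eq (i : I) (h0 : a i ≠ 0) (f : MvPolynomial I k) (hf : MvPolynomial.aeval a f ≠ 0)
    {d : ℕ} (hd : f ∈ gr k I d) (hd0 : 0 < d) :
    pt a i h0 = Spec.map (CommRingCat.ofHom (ev a f hf)) ≫ Proj.awayι (gr k I) f hd hd0 := by
  have hfg : MvPolynomial.aeval a (f * MvPolynomial.X i) ≠ 0 := by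
    rw [map_mul]
    exact mul_ne_zero hf (X_ne a i h0)
  rw [← pt_aux a f (MvPolynomial.X i) _ rfl hf hfg rfl hd hd0 (X_mem i)
    (SetLike.mul_mem_graded hd (X_mem i)) (by omega)]
  unfold pt
  rw [← pt_aux a (MvPolynomial.X i) f _ (mul_comm _ _) (X_ne a i h0) hfg (add_comm _ _) (X_mem i)
    one_pos hd (SetLike.mul_mem_graded hd (X_mem i)) (by omega)]

/-! ### Sections -/

theorem ι_app_aux {X : Scheme.{u}} (U : X.Opens) :
    U.topIso.inv ≫ U.toScheme.presheaf.map (homOfLE (le_top : U.ι ⁻¹ᵁ U ≤ ⊤)).op = U.ι.app U :=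
  (X.presheaf.map_comp _ _).symm

theorem comp_ι_app {X Y : Scheme.{u}} (U : X.Opens) (g : Y ⟶ U.toScheme) :
    U.topIso.inv ≫ g.appTop ≫ Y.presheaf.map (homOfLE le_top).op = (g ≫ U.ι).app U := by
  rw [Scheme.Hom.comp_app, ← ι_app_aux, Category.assoc, g.naturality]
  rfl

/-- sections over a basic open subset under a chart -/
theorem awayι_app (f : MvPolynomial I k) {d : ℕ} (hd : f ∈ gr k I d) (hd0 : 0 < d)
    {Y : Scheme.{u}} (g : Y ⟶ Spec (.of (Away (gr k I) f))) :
    Proj.awayToSection (gr k I) f ≫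
        (g ≫ Proj.awayι (gr k I) f hd hd0).app (Proj.basicOpen (gr k I) f) =
      (Scheme.ΓSpecIso _).inv ≫ g.appTop ≫ Y.presheaf.map (homOfLE le_top).op := by
  have h2 := comp_ι_app (Proj.basicOpen (gr k I) f)
    (g ≫ (Proj.basicOpenIsoSpec (gr k I) f hd hd0).inv)
  have h2' : (g ≫ (Proj.basicOpenIsoSpec (gr k I) f hd hd0).inv) ≫ (Proj.basicOpen (gr k I) f).ι =
      g ≫ Proj.awayι (gr k I) f hd hd0 := by
    rw [Category.assoc, Proj.basicOpenIsoSpec_inv_ι]
  have h3 : g = (g ≫ (Proj.basicOpenIsoSpec (gr k I) f hd hd0).inv) ≫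
      Proj.basicOpenToSpec (gr k I) f := by
    rw [← Proj.basicOpenIsoSpec_hom (gr k I) f hd hd0, Category.assoc, Iso.inv_hom_id,
      Category.comp_id]
  generalize g ≫ (Proj.basicOpenIsoSpec (gr k I) f hd hd0).inv = h at h2 h2' h3
  subst h3
  have h4 : ((h ≫ Proj.basicOpenToSpec (gr k I) f).appTop) =
      ((Scheme.ΓSpecIso _).hom ≫ Proj.awayToSection (gr k I) f ≫
        (Proj.basicOpen (gr k I) f).topIso.inv) ≫ h.appTop := by
    rw [Scheme.Hom.comp_appTop]
    congr 1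
    exact Proj.basicOpenToSpec_app_top (gr k I) f
  rw [h4]
  simp only [Category.assoc, Iso.inv_hom_id_assoc]
  congr 1
  have h5 : ∀ q : Y ⟶ Proj (gr k I), h ≫ (Proj.basicOpen (gr k I) f).ι = q →
      q.app (Proj.basicOpen (gr k I) f) = (Proj.basicOpen (gr k I) f).topIso.inv ≫ h.appTop ≫
        Y.presheaf.map (homOfLE le_top).op := by
    rintro _ rfl
    exact h2.symm
  exact h5 _ h2'

theorem pt_app (i : I) (h0 : a i ≠ 0) (f : MvPolynomial I k) (hf : MvPolynomial.aeval a f ≠ 0)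
    {d : ℕ} (hd : f ∈ gr k I d) (hd0 : 0 < d) (z : Away (gr k I) f) :
    (pt a i h0).app (Proj.basicOpen (gr k I) f) (Proj.awayToSection (gr k I) f z) =
      (Spec (.of K)).presheaf.map (homOfLE le_top).op
        ((Scheme.ΓSpecIso (.of K)).inv (ev a f hf z)) := by
  have h1 := awayι_app f hd hd0 (Spec.map (CommRingCat.ofHom (ev a f hf)))
  have h2 : (Scheme.ΓSpecIso (.of (Away (gr k I) f))).inv ≫
      (Spec.map (CommRingCat.ofHom (ev a f hf))).appTop =
        CommRingCat.ofHom (ev a f hf) ≫ (Scheme.ΓSpecIso (.of K)).inv :=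
    (Scheme.ΓSpecIso_inv_naturality _).symm
  rw [← Category.assoc, h2] at h1
  have key : ∀ q : Spec (.of K) ⟶ Proj (gr k I), Spec.map (CommRingCat.ofHom (ev a f hf)) ≫
      Proj.awayι (gr k I) f hd hd0 = q → Proj.awayToSection (gr k I) f ≫
        q.app (Proj.basicOpen (gr k I) f) = (CommRingCat.ofHom (ev a f hf) ≫
          (Scheme.ΓSpecIso (.of K)).inv) ≫ (Spec (.of K)).presheaf.map (homOfLE le_top).op := by
    rintro _ rfl
    exact h1
  exact congr($(key _ (pt_eq a i h0 f hf hd hd0).symm) z)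

theorem pt_mem (i : I) (h0 : a i ≠ 0) (f : MvPolynomial I k) (hf : MvPolynomial.aeval a f ≠ 0)
    {d : ℕ} (hd : f ∈ gr k I d) (hd0 : 0 < d) :
    pt a i h0 (x0 K) ∈ Proj.basicOpen (gr k I) f := by
  rw [pt_eq a i h0 f hf hd hd0, ← Proj.opensRange_awayι (gr k I) f hd hd0]
  exact ⟨_, rfl⟩

theorem gp_mem (i : I) (h0 : a i ≠ 0) (f : MvPolynomial I k) (hf : MvPolynomial.aeval a f ≠ 0)
    {d : ℕ} (hd : f ∈ gr k I d) (hd0 : 0 < d) :
    genericPoint (pt a i h0).image ∈ (pt a i h0).imageι ⁻¹ᵁ Proj.basicOpen (gr k I) f := by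
  have h1 := pt_mem a i h0 f hf hd hd0
  rw [gp_img]
  rw [← (pt a i h0).toImage_imageι] at h1
  exact h1

theorem Theta_ev (i : I) (h0 : a i ≠ 0) (f : MvPolynomial I k) (hf : MvPolynomial.aeval a f ≠ 0)
    {d : ℕ} (hd : f ∈ gr k I d) (hd0 : 0 < d) (z : Away (gr k I) f) :
    Theta (pt a i h0) ((pt a i h0).image.presheaf.germ _ _ (gp_mem a i h0 f hf hd hd0)
      ((pt a i h0).imageι.app _ (Proj.awayToSection (gr k I) f z))) = ev a f hf z :=
  Theta_germ (pt a i h0) _ _ _ _ (pt_app a i h0 f hf hd hd0 z)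

/-! ### The structure morphism -/

/-- the structure morphism of projective space -/
def strP (k : Type u) [Field k] (I : Type) : PP k I ⟶ Spec (.of k) :=
  Proj.toSpecZero (gr k I) ≫ Spec.map (CommRingCat.ofHom (algebraMap k (gr k I 0)))

theorem pt_strP (i : I) (h0 : a i ≠ 0) :
    pt a i h0 ≫ strP k I = Spec.map (CommRingCat.ofHom (algebraMap k K)) := by
  unfold pt strP
  rw [Category.assoc, Proj.awayι_toSpecZero_assoc, ← Spec.map_comp, ← Spec.map_comp,
    ← CommRingCat.ofHom_comp, ← CommRingCat.ofHom_comp]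
  congr 2
  ext c
  exact ev_zero a _ (X_ne a i h0) c

theorem Theta_cst (i : I) (h0 : a i ≠ 0) (c : k) :
    Theta (pt a i h0) ((pt a i h0).image.presheaf.germ ⊤ _ trivial
      (((pt a i h0).imageι ≫ strP k I).appTop ((Scheme.ΓSpecIso (.of k)).inv c))) =
        algebraMap k K c := by
  refine Theta_germ (pt a i h0) ⊤ trivial ((strP k I).appTop ((Scheme.ΓSpecIso (.of k)).inv c)) _ ?_
  have h2 : (Scheme.ΓSpecIso (.of k)).inv ≫
      (Spec.map (CommRingCat.ofHom (algebraMap k K))).appTop =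
        CommRingCat.ofHom (algebraMap k K) ≫ (Scheme.ΓSpecIso (.of K)).inv :=
    (Scheme.ΓSpecIso_inv_naturality _).symm
  have h3 := congrArg (fun q => q.appTop) (pt_strP (k := k) a i h0)
  have h4 := congr($h3 ((Scheme.ΓSpecIso (.of k)).inv c))
  refine Eq.trans h4 ?_
  refine Eq.trans congr($h2 c) ?_
  exact congr($((Spec (.of K)).presheaf.map_id (Opposite.op ⊤))
    ((Scheme.ΓSpecIso (.of K)).inv (algebraMap k K c))).symm

end

end Pool.Agent.Helper28.RZ.SE
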